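import Pool.Agent.Helper15.Murre.KO

/-!
# The Lefschetz trace formula

`str f` is the supertrace of `H_*(f)` for `f : M ⟶ M`: it is a rational number, `str (f ≫ g) =
str (g ≫ f)`, and `str (ptr f) = str f` for the partial trace `ptr f` of `f : X ⊗ M ⟶ X ⊗ M`.
-/

open CategoryTheory MonoidalCategory Limits TensorProduct

universe w v u

namespace Pool.Agent.Helper15.Murre

variable {C : Type u} [Category.{v} C] [Preadditive C] [Linear ℚ C]
  [MonoidalCategory C] [SymmetricCategory C] [RigidCategory C] {F : Type w} [Field F]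

/-! ### The base field has characteristic zero -/

lemma MotivicHomology.nat_ne_zero (W : MotivicHomology C F) (n : ℕ) (hn : n ≠ 0) : (n : F) ≠ 0 := by
  intro h2
  have hadd := W.additive
  have h1 : (n : ℤ) • ((n : ℚ)⁻¹ • 𝟙 (W.T 0)) = 𝟙 (W.T 0) := by
    rw [← Int.cast_smul_eq_zsmul ℚ, smul_smul]
    have : (n : ℚ) ≠ 0 := by exact_mod_cast hn
    simp [this]
  have h3 := congrArg W.H.map h1
  rw [Functor.map_zsmul, CategoryTheory.Functor.map_id] at h3
  have h4 : Subsingleton (W.H.obj (W.T 0)) := by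
    refine ⟨fun a b => ?_⟩
    have h5 : ∀ a : W.H.obj (W.T 0), a = 0 := by
      intro a
      have h6 := congrArg (fun t => t.hom a) h3
      have h7 : (𝟙 (W.H.obj (W.T 0)) : _ ⟶ _).hom a = a := rfl
      have h8 : ((n : ℤ) • W.H.map ((n : ℚ)⁻¹ • 𝟙 (W.T 0))).hom a
        = (n : ℤ) • (W.H.map ((n : ℚ)⁻¹ • 𝟙 (W.T 0))).hom a := rfl
      simp only [h7, h8] at h6
      rw [← h6, ← Int.cast_smul_eq_zsmul F]
      push_cast
      rw [h2, zero_smul]
    rw [h5 a, h5 b]
  have h5 := W.tateRank 0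
  rw [Module.finrank_zero_of_subsingleton] at h5
  omega

lemma MotivicHomology.charZero (W : MotivicHomology C F) : CharZero F := by
  constructor
  intro m n h
  by_contra hmn
  wlog hlt : m < n generalizing m n
  · exact this h.symm (Ne.symm hmn) (by omega)
  have h1 : ((n - m : ℕ) : F) = 0 := by
    rw [Nat.cast_sub hlt.le, h, sub_self]
  exact W.nat_ne_zero (n - m) (by omega) h1

variable (W : MotivicHomology C F)

lemma MotivicHomology.map_smul_apply {X Y : C} (q : ℚ) (f : X ⟶ Y) (x : W.H.obj X) :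
    (W.H.map (q • f)).hom x = (q : F) • (W.H.map f).hom x := by
  have hadd := W.additive
  have hF := W.charZero
  have h1 : (q.den : ℤ) • (q • f) = q.num • f := by
    rw [← Int.cast_smul_eq_zsmul ℚ, ← Int.cast_smul_eq_zsmul ℚ, smul_smul]
    congr 1
    have := Rat.den_mul_eq_num q
    exact_mod_cast this
  have h2 := congrArg (fun t => (W.H.map t).hom x) h1
  simp only [W.map_zsmul_apply] at h2
  rw [← Int.cast_smul_eq_zsmul F, ← Int.cast_smul_eq_zsmul F] at h2
  have hd : (q.den : F) ≠ 0 := W.nat_ne_zero _ q.den_nz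
  have h3 : (q : F) = (q.num : F) / (q.den : F) := Rat.cast_def q
  rw [h3, div_eq_inv_mul, mul_smul, ← h2, smul_smul]
  push_cast
  rw [inv_mul_cancel₀ hd, one_smul]

/-! ### The sign operator -/

/-- the sign operator: `(-1)^j` on `H_j(M)` -/
noncomputable def MotivicHomology.sgn (M : C) : W.H.obj M →ₗ[F] W.H.obj M :=
  (DirectSum.toModule F ℤ _ (fun j => ((j.negOnePow : ℤˣ) : ℤ) • (W.gr M j).subtype)) ∘ₗ
    (LinearEquiv.ofBijective (DirectSum.coeLinearMap (W.gr M)) (W.isInternal M)).symm.toLinearMap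

lemma MotivicHomology.sgn_apply {M : C} {j : ℤ} {x : W.H.obj M} (hx : x ∈ W.gr M j) :
    W.sgn M x = ((j.negOnePow : ℤˣ) : ℤ) • x := by
  unfold MotivicHomology.sgn
  have h1 : (LinearEquiv.ofBijective (DirectSum.coeLinearMap (W.gr M)) (W.isInternal M)).symm x
      = DirectSum.lof F ℤ (fun i => W.gr M i) j ⟨x, hx⟩ := by
    rw [LinearEquiv.symm_apply_eq]
    change x = DirectSum.coeLinearMap (W.gr M) _
    rw [DirectSum.coeLinearMap_lof]
  rw [LinearMap.comp_apply]
  change (DirectSum.toModule F ℤ _ _) ((LinearEquiv.ofBijective _ _).symm x) = _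
  rw [h1, DirectSum.toModule_lof]
  rfl

lemma MotivicHomology.sgn_sgn {M : C} (x : W.H.obj M) : W.sgn M (W.sgn M x) = x := by
  induction x using W.induction with
  | h1 j x hx =>
    rw [W.sgn_apply hx, map_zsmul, W.sgn_apply hx, smul_smul]
    have : ((j.negOnePow : ℤˣ) : ℤ) * ((j.negOnePow : ℤˣ) : ℤ) = 1 := by
      rw [← Units.val_mul, Int.units_mul_self]; rfl
    rw [this, one_smul]
  | h2 x y hx hy => rw [map_add, map_add, hx, hy]

lemma MotivicHomology.sgn_map {M N : C} (f : M ⟶ N) (x : W.H.obj M) :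
    W.sgn N ((W.H.map f).hom x) = (W.H.map f).hom (W.sgn M x) := by
  induction x using W.induction with
  | h1 j x hx =>
    rw [W.sgn_apply hx, W.sgn_apply (W.map_gr f j x hx), map_zsmul]
  | h2 x y hx hy => rw [map_add, map_add, map_add, map_add, hx, hy]

lemma MotivicHomology.sgn_cross {M N : C} (x : W.H.obj M) (y : W.H.obj N) :
    W.sgn (M ⊗ N) (W.cross x y) = W.cross (W.sgn M x) (W.sgn N y) := by
  induction x using W.induction with
  | h1 i x hx =>
    induction y using W.induction with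
    | h1 j y hy =>
      rw [W.sgn_apply hx, W.sgn_apply hy, W.sgn_apply (W.cross_mem hx hy),
        W.cross_zsmul_left, W.cross_zsmul_right, smul_smul]
      congr 1
      rw [Int.negOnePow_add]
      rfl
    | h2 y y' hy hy' =>
      rw [W.cross_add_right, map_add, map_add, W.cross_add_right, hy, hy']
  | h2 x x' hx hx' => rw [W.cross_add_left, map_add, map_add, W.cross_add_left, hx, hx']

/-! ### The supertrace -/

/-- the supertrace of `H_*(f)` -/
noncomputable def MotivicHomology.str {M : C} (f : M ⟶ M) : F :=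
  LinearMap.trace F (W.H.obj M) (W.sgn M ∘ₗ (W.H.map f).hom)

lemma MotivicHomology.str_comm {M N : C} (f : M ⟶ N) (g : N ⟶ M) :
    W.str (f ≫ g) = W.str (g ≫ f) := by
  have := W.finite M
  have := W.finite N
  unfold MotivicHomology.str
  have h1 : W.sgn M ∘ₗ (W.H.map (f ≫ g)).hom
      = (W.H.map g).hom ∘ₗ (W.sgn N ∘ₗ (W.H.map f).hom) := by
    ext x
    simp only [LinearMap.comp_apply, W.map_comp_apply, W.sgn_map]
  have h2 : W.sgn N ∘ₗ (W.H.map (g ≫ f)).hom
      = (W.sgn N ∘ₗ (W.H.map f).hom) ∘ₗ (W.H.map g).hom := by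
    ext x
    simp only [LinearMap.comp_apply, W.map_comp_apply, W.sgn_map]
  rw [h1, h2]
  exact LinearMap.trace_comp_comm' _ _

lemma MotivicHomology.str_add {M : C} (f g : M ⟶ M) :
    W.str (f + g) = W.str f + W.str g := by
  unfold MotivicHomology.str
  rw [← map_add]
  congr 1
  ext x
  simp only [LinearMap.comp_apply, LinearMap.add_apply, W.map_add_apply, map_add]

/-- the supertrace of an endomorphism supported in degree `d` -/
lemma MotivicHomology.str_pure {M : C} (f : M ⟶ M) (d : ℤ)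
    (hf : ∀ j, j ≠ d → ∀ x ∈ W.gr M j, (W.H.map f).hom x = 0) :
    W.str f = ((d.negOnePow : ℤˣ) : ℤ) • LinearMap.trace F (W.H.obj M) (W.H.map f).hom := by
  unfold MotivicHomology.str
  rw [← map_zsmul]
  congr 1
  ext x
  induction x using W.induction with
  | h1 j x hx =>
    by_cases hj : j = d
    · subst hj
      rw [LinearMap.comp_apply, W.sgn_apply (W.map_gr f j x hx), LinearMap.smul_apply]
    · rw [LinearMap.comp_apply, LinearMap.smul_apply, hf j hj x hx, map_zero, smul_zero]
  | h2 x y hx hy => rw [map_add, map_add, hx, hy]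

/-- the supertrace of an endomorphism supported in even degrees -/
lemma MotivicHomology.str_even {M : C} (f : M ⟶ M)
    (hf : ∀ j, ¬ Even j → ∀ x ∈ W.gr M j, (W.H.map f).hom x = 0) :
    W.str f = LinearMap.trace F (W.H.obj M) (W.H.map f).hom := by
  unfold MotivicHomology.str
  congr 1
  ext x
  induction x using W.induction with
  | h1 j x hx =>
    by_cases hj : Even j
    · rw [LinearMap.comp_apply, W.sgn_apply (W.map_gr f j x hx), Int.negOnePow_even j hj]
      simp
    · rw [LinearMap.comp_apply, hf j hj x hx, map_zero]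
  | h2 x y hx hy => rw [map_add, map_add, hx, hy]

/-! ### Contractions -/

/-- the Kunneth isomorphism -/
noncomputable def MotivicHomology.crossEquiv (M N : C) :
    ((W.H.obj M) ⊗[F] (W.H.obj N)) ≃ₗ[F] (W.H.obj (M ⊗ N)) :=
  letI := W.monoidal
  LinearEquiv.ofLinearMap (Functor.LaxMonoidal.μ W.H M N).hom (Functor.OplaxMonoidal.δ W.H M N).hom
    (by
      have := Functor.Monoidal.δ_μ W.H M N
      ext z
      exact congrArg (fun t => t.hom z) this)
    (by
      have := Functor.Monoidal.μ_δ W.H M N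
      apply LinearMap.ext
      intro z
      exact congrArg (fun t => t.hom z) this)

lemma MotivicHomology.crossEquiv_tmul {M N : C} (x : W.H.obj M) (y : W.H.obj N) :
    W.crossEquiv M N (x ⊗ₜ[F] y) = W.cross x y := rfl

lemma MotivicHomology.crossEquiv_symm_cross {M N : C} (x : W.H.obj M) (y : W.H.obj N) :
    (W.crossEquiv M N).symm (W.cross x y) = x ⊗ₜ[F] y := by
  rw [← W.crossEquiv_tmul, LinearEquiv.symm_apply_apply]

/-- contraction of the second factor with a linear form -/
noncomputable def MotivicHomology.contr {Y M : C} (ψ : W.H.obj M →ₗ[F] F) :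
    W.H.obj (Y ⊗ M) →ₗ[F] W.H.obj Y :=
  (TensorProduct.rid F (W.H.obj Y)).toLinearMap ∘ₗ (LinearMap.lTensor (W.H.obj Y) ψ) ∘ₗ
    (W.crossEquiv Y M).symm.toLinearMap

lemma MotivicHomology.contr_cross {Y M : C} (ψ : W.H.obj M →ₗ[F] F) (y : W.H.obj Y)
    (m : W.H.obj M) : W.contr ψ (W.cross y m) = ψ m • y := by
  unfold MotivicHomology.contr
  simp only [LinearMap.comp_apply, LinearEquiv.coe_coe]
  rw [W.crossEquiv_symm_cross]
  simp

/-! ### Coevaluation -/

/-- sums of cross products -/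
lemma MotivicHomology.exists_sum {X Y : C} (z : W.H.obj (X ⊗ Y)) :
    ∃ (s : Finset (W.H.obj X × W.H.obj Y)), z = ∑ p ∈ s, W.cross p.1 p.2 := by
  obtain ⟨s, hs⟩ := TensorProduct.exists_finset ((W.crossEquiv X Y).symm z)
  refine ⟨s, ?_⟩
  have h2 := congrArg (W.crossEquiv X Y) hs
  rw [LinearEquiv.apply_symm_apply, map_sum] at h2
  exact h2

lemma MotivicHomology.cross_sum_left {X Y : C} {ι : Type*} (s : Finset ι) (x : ι → W.H.obj X)
    (y : W.H.obj Y) : W.cross (∑ i ∈ s, x i) y = ∑ i ∈ s, W.cross (x i) y := by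
  have h := map_sum (((W.crossEquiv X Y).toLinearMap ∘ₗ
    ((TensorProduct.mk F (W.H.obj X) (W.H.obj Y)).flip y)) : W.H.obj X →ₗ[F] _) x s
  exact h

lemma MotivicHomology.cross_sum_right {X Y : C} {ι : Type*} (s : Finset ι) (x : W.H.obj X)
    (y : ι → W.H.obj Y) : W.cross x (∑ i ∈ s, y i) = ∑ i ∈ s, W.cross x (y i) := by
  have h := map_sum (((W.crossEquiv X Y).toLinearMap ∘ₗ
    ((TensorProduct.mk F (W.H.obj X) (W.H.obj Y)) x)) : W.H.obj Y →ₗ[F] _) y s
  exact h

/-- a coordinate on the homology of the unit object -/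
lemma MotivicHomology.exists_coord : ∃ c : W.H.obj (𝟙_ C) →ₗ[F] F,
    ∀ z, z = c z • W.unit := by
  let _ := W.monoidal
  refine ⟨(Functor.OplaxMonoidal.η W.H).hom, ?_⟩
  intro z
  have h1 : (Functor.OplaxMonoidal.η W.H) ≫ (Functor.LaxMonoidal.ε W.H) = 𝟙 _ :=
    Functor.Monoidal.η_ε W.H
  have h2 := congrArg (fun t => t.hom z) h1
  have h3 : (Functor.LaxMonoidal.ε W.H).hom ((Functor.OplaxMonoidal.η W.H).hom z) = z := h2
  have h4 : (Functor.OplaxMonoidal.η W.H).hom z = ((Functor.OplaxMonoidal.η W.H).hom z : F) • (1 : F) := by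
    rw [smul_eq_mul, mul_one]
  conv_lhs => rw [← h3, h4, map_smul]
  rfl

lemma MotivicHomology.map_ev_braid {M N : C} (e : N ⊗ M ⟶ 𝟙_ C) (m : W.H.obj M)
    (y : W.H.obj N) : (W.H.map ((β_ M N).hom ≫ e)).hom (W.cross m y)
      = (W.H.map e).hom (W.cross y (W.sgn M m)) := by
  rw [W.map_comp_apply]
  induction m using W.induction with
  | h1 i m hm =>
    induction y using W.induction with
    | h1 j y hy =>
      rw [W.cross_swap hm hy, W.sgn_apply hm, W.cross_zsmul_right, map_zsmul]
      by_cases hij : j + i = 0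
      · change (W.H.map e).hom ((((i * j).negOnePow : ℤˣ) : ℤ) • W.cross y m) = _
        rw [map_zsmul]
        congr 2
        have h3 : j = -i := by omega
        subst h3
        rcases Int.even_or_odd i with h | h
        · rw [Int.negOnePow_even i h, Int.negOnePow_even _ (h.mul_right _)]
        · rw [Int.negOnePow_odd i h, Int.negOnePow_odd _ (h.mul h.neg)]
      · have h4 : (W.H.map e).hom (W.cross y m) = 0 :=
          W.eq_zero_of_mem hij (W.map_gr e _ _ (W.cross_mem hy hm)) (W.unit_mem _)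
        change (W.H.map e).hom ((((i * j).negOnePow : ℤˣ) : ℤ) • W.cross y m) = _
        rw [map_zsmul, h4, smul_zero, smul_zero]
    | h2 y y' hy hy' =>
      rw [W.cross_add_right, map_add, map_add, hy, hy', W.cross_add_left, map_add]
  | h2 m m' hm hm' =>
    rw [W.cross_add_left, map_add, map_add, map_add, W.cross_add_right, map_add, hm, hm']

/-- Partial traces in homology. -/
theorem MotivicHomology.exists_coev (M : C) : ∃ (ι : Type w) (_ : Fintype ι)
    (x : ι → W.H.obj M) (φ : ι → (W.H.obj M →ₗ[F] F)), (∀ m, ∑ i, φ i m • x i = m) ∧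
    ∀ (X Y : C) (f : X ⊗ M ⟶ Y ⊗ M) (z : W.H.obj X), (W.H.map (ptr X Y M f)).hom z =
      ∑ i, W.contr (φ i ∘ₗ W.sgn M) ((W.H.map f).hom (W.cross z (x i))) := by
  obtain ⟨s, hs⟩ := W.exists_sum ((W.H.map (η_ M (Mᘁ))).hom W.unit)
  obtain ⟨c, hc⟩ := W.exists_coord
  let ev : W.H.obj (Mᘁ) → (W.H.obj M →ₗ[F] F) := fun y =>
    c ∘ₗ (W.H.map (ε_ M (Mᘁ))).hom ∘ₗ (W.crossEquiv (Mᘁ) M).toLinearMap ∘ₗ
      (TensorProduct.mk F _ _ y)
  have hev : ∀ y m, (W.H.map (ε_ M (Mᘁ))).hom (W.cross y m) = ev y m • W.unit := by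
    intro y m
    exact hc _
  refine ⟨s, inferInstance, fun i => i.1.1, fun i => ev i.1.2, ?_, ?_⟩
  · intro m
    have h1 := congrArg (fun t => (W.H.map t).hom (W.cross W.unit m))
      (ExactPairing.evaluation_coevaluation M (Mᘁ))
    simp only [W.map_comp_apply] at h1
    rw [W.unit_cross, W.cross_unit', W.map_whiskerRight_cross, hs] at h1
    have h2 : W.cross (∑ i : s, ev i.1.2 m • i.1.1) W.unit = W.cross m W.unit := by
      rw [← h1, W.cross_sum_left, W.cross_sum_left, map_sum, map_sum, ← Finset.sum_coe_sort s]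
      refine Finset.sum_congr rfl fun i _ => ?_
      rw [W.cross_assoc, W.map_whiskerLeft_cross, hev, W.cross_smul_right, W.cross_smul_left]
    have h3 := congrArg (W.H.map (ρ_ M).hom).hom h2
    rwa [W.cross_unit, W.cross_unit] at h3
  · intro X Y f z
    unfold ptr
    simp only [W.map_comp_apply _ _ z, W.map_comp_apply]
    rw [W.cross_unit', W.map_whiskerLeft_cross, hs, W.cross_sum_right, map_sum, map_sum, map_sum,
      map_sum, map_sum, ← Finset.sum_coe_sort s]
    refine Finset.sum_congr rfl fun i _ => ?_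
    rw [W.cross_assoc', W.map_whiskerRight_cross]
    generalize (W.H.map f).hom (W.cross z i.1.1) = t
    induction t using W.cross_induction with
    | h1 a b y hy m hm =>
      rw [W.cross_assoc, W.map_whiskerLeft_cross, W.map_ev_braid, hev, W.cross_smul_right,
        map_smul, W.cross_unit, W.contr_cross]
      rfl
    | h2 t t' ht ht' =>
      rw [W.cross_add_left, map_add, map_add, map_add, map_add, ht, ht']

/-! ### The trace formula -/

/-- the trace of a partial trace -/
lemma trace_partial {F : Type*} [Field F] {V A : Type*} [AddCommGroup V] [Module F V]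
    [Module.Finite F V] [AddCommGroup A] [Module F A] [Module.Finite F A] {ι : Type*} [Fintype ι]
    (x : ι → A) (φ : ι → (A →ₗ[F] F)) (h : ∀ m, ∑ i, φ i m • x i = m)
    (B : V ⊗[F] A →ₗ[F] V ⊗[F] A) :
    LinearMap.trace F V (∑ i, (TensorProduct.rid F V).toLinearMap ∘ₗ LinearMap.lTensor V (φ i) ∘ₗ
      B ∘ₗ (TensorProduct.mk F V A).flip (x i)) = LinearMap.trace F (V ⊗[F] A) B := by
  obtain ⟨t, rfl⟩ := (homTensorHomEquiv F V A V A).surjective B
  induction t with
  | zero =>
    rw [map_zero]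
    simp only [LinearMap.zero_comp, LinearMap.comp_zero, Finset.sum_const_zero, map_zero]
  | add a b ha hb =>
    rw [map_add]
    simp only [LinearMap.add_comp, LinearMap.comp_add, Finset.sum_add_distrib, map_add] at ha hb ⊢
    rw [ha, hb]
  | tmul a b =>
    rw [homTensorHomEquiv_apply, TensorProduct.homTensorHomMap_apply,
      LinearMap.trace_tensorProduct']
    have h1 : ∀ i, (TensorProduct.rid F V).toLinearMap ∘ₗ LinearMap.lTensor V (φ i) ∘ₗ
      (TensorProduct.map a b) ∘ₗ (TensorProduct.mk F V A).flip (x i) = φ i (b (x i)) • a := by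
      intro i
      ext v
      simp
    rw [Finset.sum_congr rfl fun i _ => h1 i, map_sum]
    simp only [map_smul, smul_eq_mul]
    rw [← Finset.sum_mul, mul_comm]
    congr 1
    have h2 : b = ∑ i, (φ i).smulRight (b (x i)) := by
      ext m
      conv_lhs => rw [← h m, map_sum]
      simp
    conv_rhs => rw [h2, map_sum]
    refine Finset.sum_congr rfl fun i _ => ?_
    simp [LinearMap.trace_smulRight]

/-- **trace formula**: the supertrace of a partial trace -/
theorem MotivicHomology.str_ptr (X M : C) (f : X ⊗ M ⟶ X ⊗ M) :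
    W.str (ptr X X M f) = W.str f := by
  have := W.finite X
  have := W.finite M
  obtain ⟨ι, _, x, φ, h, hφ⟩ := W.exists_coev M
  unfold MotivicHomology.str
  have h1 := trace_partial (V := W.H.obj X) x φ h ((W.crossEquiv X M).symm.toLinearMap ∘ₗ
    (W.sgn (X ⊗ M) ∘ₗ (W.H.map f).hom) ∘ₗ (W.crossEquiv X M).toLinearMap)
  have h2 : LinearMap.trace F _ ((W.crossEquiv X M).symm.toLinearMap ∘ₗ
    (W.sgn (X ⊗ M) ∘ₗ (W.H.map f).hom) ∘ₗ (W.crossEquiv X M).toLinearMap) =
      LinearMap.trace F _ (W.sgn (X ⊗ M) ∘ₗ (W.H.map f).hom) :=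
    LinearMap.trace_conj' (W.sgn (X ⊗ M) ∘ₗ (W.H.map f).hom) (W.crossEquiv X M).symm
  rw [← h2, ← h1]
  congr 1
  ext z
  rw [LinearMap.comp_apply, hφ, map_sum, LinearMap.sum_apply]
  refine Finset.sum_congr rfl fun i _ => ?_
  simp only [LinearMap.comp_apply, LinearEquiv.coe_coe]
  have h3 : (W.crossEquiv X M) (((TensorProduct.mk F (W.H.obj X) (W.H.obj M)).flip (x i)) z)
    = W.cross z (x i) := rfl
  rw [h3]
  generalize (W.H.map f).hom (W.cross z (x i)) = t
  induction t using W.cross_induction with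
  | h1 a b y hy m hm =>
    rw [W.contr_cross, W.sgn_cross, W.crossEquiv_symm_cross, map_smul]
    simp
  | h2 t t' ht ht' =>
    simp only [map_add]
    rw [ht, ht']

/-- **Lefschetz trace formula**: the supertrace of `H_*(f)` is a rational number -/
theorem MotivicHomology.str_rat (M : C) (f : M ⟶ M) : ∃ q : ℚ, W.str f = (q : F) := by
  obtain ⟨q, hq⟩ := W.endUnit (ptr (𝟙_ C) (𝟙_ C) M ((λ_ M).hom ≫ f ≫ (λ_ M).inv))
  refine ⟨q, ?_⟩
  have h1 := W.str_ptr (𝟙_ C) M ((λ_ M).hom ≫ f ≫ (λ_ M).inv)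
  rw [hq] at h1
  have h2 : W.str ((λ_ M).hom ≫ f ≫ (λ_ M).inv) = W.str f := by
    rw [W.str_comm]
    simp
  rw [h2] at h1
  rw [← h1]
  have hfin := W.finite (𝟙_ C)
  unfold MotivicHomology.str
  have h3 : W.sgn (𝟙_ C) ∘ₗ (W.H.map (q • 𝟙 (𝟙_ C))).hom = (q : F) • LinearMap.id := by
    ext x
    rw [LinearMap.comp_apply, W.map_smul_apply, W.map_id_apply, map_smul,
      W.sgn_apply (W.unit_mem x)]
    simp
  rw [h3, map_smul, LinearMap.trace_id]
  have h4 : Module.finrank F (W.H.obj (𝟙_ C)) = 1 := by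
    rw [← W.tateRank 0]
    exact (LinearEquiv.finrank_eq (W.H.mapIso W.tateZero).toLinearEquiv).symm
  rw [h4]
  simp

end Pool.Agent.Helper15.Murre
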