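import Pool.Agent.Helper15.MAD.TraceA
import Pool.Agent.Helper90.MAD.TraceD
import Pool.Agent.Helper15.Murre.Twist

open CategoryTheory MonoidalCategory Limits TensorProduct
open Pool.Agent.Helper15.Murre Pool.Agent.Helper58.MAD Pool.Agent.Helper90.MAD

universe w v u

set_option linter.unusedSectionVars false

namespace Pool.Agent.Helper15.MAD

variable {C : Type u} [Category.{v} C] [Preadditive C] [Linear ℚ C]
  [MonoidalCategory C] [SymmetricCategory C] [MonoidalPreadditive C] [MonoidalLinear ℚ C]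
  [RigidCategory C] {F : Type w} [Field F] {W : MotivicHomology C F}

/-! ### Untwisting endomorphisms -/

lemma exists_untwist {N : C} (m : ℤ) (f : N ⊗ W.T m ⟶ N ⊗ W.T m) :
    ∃ u : N ⟶ N, u ▷ W.T m = f := by
  refine ⟨(untwist W N m).inv ≫ (f ▷ W.T (-m)) ≫ (untwist W N m).hom, ?_⟩
  set u := (untwist W N m).inv ≫ (f ▷ W.T (-m)) ≫ (untwist W N m).hom with hu
  have h1 := untwist_natural (W := W) u m
  have h2 : (u ▷ W.T m) ▷ W.T (-m) = f ▷ W.T (-m) := by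
    have h3 := congrArg (· ≫ (untwist W N m).inv) h1
    simp only [Category.assoc, Iso.hom_inv_id, Category.comp_id] at h3
    rw [h3, hu]
    simp
  have h4 := whisker_faithful (W := W) (u ▷ W.T m - f) (-m) (by rw [sub_whisk, h2, sub_self])
  exact sub_eq_zero.1 h4

/-! ### Supports -/

variable {N : C} {n : ℤ} {L : N ⟶ N ⊗ W.T 1}

/-- `L ≫ (R ▷ 1) ≫ θ ≫ R` is supported on `H_(n+1)` -/
lemma support_block {R : N ⟶ N}
    (hR : ∀ j, j ≠ n - 1 → j ≠ n + 1 → ∀ x ∈ W.gr N j, (W.H.map R).hom x = 0)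
    (θ : N ⊗ W.T 1 ⟶ N) (j : ℤ) (hj : j ≠ n + 1) (x : W.H.obj N) (hx : x ∈ W.gr N j) :
    (W.H.map (L ≫ (R ▷ W.T 1) ≫ θ ≫ R)).hom x = 0 := by
  rw [W.map_comp_apply, W.map_comp_apply, W.map_comp_apply]
  by_cases h1 : j = n + 3
  · have h2 : (W.H.map θ).hom ((W.H.map (R ▷ W.T 1)).hom ((W.H.map L).hom x)) ∈ W.gr N j :=
      W.map_gr _ _ _ (W.map_gr _ _ _ (W.map_gr _ _ _ hx))
    exact hR j (by omega) hj _ h2
  · rw [map_whisker_zero R 1 j (hR _ (by omega) (by omega)) _ (W.map_gr _ _ _ hx)]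
    rw [map_zero, map_zero]

lemma str_block {R : N ⟶ N}
    (hR : ∀ j, j ≠ n - 1 → j ≠ n + 1 → ∀ x ∈ W.gr N j, (W.H.map R).hom x = 0)
    (θ : N ⊗ W.T 1 ⟶ N) :
    W.str (L ≫ (R ▷ W.T 1) ≫ θ ≫ R) = (((n + 1).negOnePow : ℤˣ) : ℤ) •
      LinearMap.trace F (W.H.obj N) (W.H.map (L ≫ (R ▷ W.T 1) ≫ θ ≫ R)).hom :=
  W.str_pure _ (n + 1) (support_block hR θ)

/-- one of the two partial traces -/
lemma exists_theta_aux {R : N ⟶ N}
    (hR : ∀ j, j ≠ n - 1 → j ≠ n + 1 → ∀ x ∈ W.gr N j, (W.H.map R).hom x = 0)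
    (k : (N ⊗ W.T 1) ⊗ N ⟶ N ⊗ N)
    (hk : W.str ((L ▷ N) ≫ ((R ▷ W.T 1) ⊗ₘ R) ≫ k ≫ (R ⊗ₘ R)) ≠ 0) :
    ∃ θ : N ⊗ W.T 1 ⟶ N,
      LinearMap.trace F (W.H.obj N) (W.H.map (L ≫ (R ▷ W.T 1) ≫ θ ≫ R)).hom ≠ 0 := by
  let h : (N ⊗ W.T 1) ⊗ N ⟶ N ⊗ N := ((N ⊗ W.T 1) ◁ R) ≫ k ≫ (N ◁ R)
  refine ⟨ptr (N ⊗ W.T 1) N N h, ?_⟩
  have h1 : (L ▷ N) ≫ ((R ▷ W.T 1) ⊗ₘ R) ≫ k ≫ (R ⊗ₘ R) =
      ((L ≫ (R ▷ W.T 1)) ▷ N) ≫ h ≫ (R ▷ N) := by
    rw [tensorHom_def (R ▷ W.T 1) R, tensorHom_def' R R, comp_whiskerRight]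
    simp only [h, Category.assoc]
  rw [h1, ← W.str_ptr, ptr_natural] at hk
  have h2 := str_block (L := L) hR (ptr (N ⊗ W.T 1) N N h)
  rw [Category.assoc, h2] at hk
  intro h3
  rw [h3, smul_zero] at hk
  exact hk rfl

/-- For a block `R` with nonzero image in `H_(n+1)`, one of the two partial traces `θ` of `g'`
satisfies `trace (L θ) ≠ 0`. -/
theorem exists_theta {R : N ⟶ N} (hR : IsBlock W n L R) (g : (N ⊗ N) ⊗ W.T 1 ⟶ N ⊗ N)
    (hg₁ : ∀ x ∈ W.gr (N ⊗ N) (2 * n + 2), (W.H.map (squareL W L ≫ g)).hom x = x)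
    (hg₂ : ∀ z ∈ W.gr ((N ⊗ N) ⊗ W.T 1) (2 * n), (W.H.map (g ≫ squareL W L)).hom z = z)
    (x : W.H.obj N) (hx : x ∈ W.gr N (n + 1)) (hRx : (W.H.map R).hom x = x) (hx0 : x ≠ 0) :
    ∃ θ : N ⊗ W.T 1 ⟶ N,
      LinearMap.trace F (W.H.obj N) (W.H.map (L ≫ (R ▷ W.T 1) ≫ θ ≫ R)).hom ≠ 0 := by
  have h1 := hR.trace_ne_zero g hg₁ hg₂ x hx hRx hx0
  have h2 : W.str (squareL W L ≫ ((R ⊗ₘ R) ▷ W.T 1) ≫ g ≫ (R ⊗ₘ R)) ≠ 0 := by
    rw [W.str_even]
    · exact h1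
    · intro j hj z hz
      rw [W.map_comp_apply, W.map_comp_apply,
        hR.tw_zero j (by rintro rfl; exact hj (by simp)) (by
          rintro rfl; exact hj (by simp [parity_simps])) (by
          rintro rfl; exact hj (by simp [parity_simps]; decide)) _ (W.map_gr _ _ _ hz), map_zero]
  rw [squareL_eq, Preadditive.add_comp, W.str_add] at h2
  have h3 : W.str (((L ▷ N) ≫ shuf W N) ≫ ((R ⊗ₘ R) ▷ W.T 1) ≫ g ≫ (R ⊗ₘ R)) ≠ 0 ∨
      W.str (((N ◁ L) ≫ (α_ N N (W.T 1)).inv) ≫ ((R ⊗ₘ R) ▷ W.T 1) ≫ g ≫ (R ⊗ₘ R)) ≠ 0 := by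
    by_contra h4
    push Not at h4
    rw [h4.1, h4.2, add_zero] at h2
    exact h2 rfl
  rcases h3 with h3 | h3
  · refine exists_theta_aux hR.zero (shuf W N ≫ g) ?_
    have h4 : ((L ▷ N) ≫ shuf W N) ≫ ((R ⊗ₘ R) ▷ W.T 1) ≫ g ≫ (R ⊗ₘ R) =
        (L ▷ N) ≫ ((R ▷ W.T 1) ⊗ₘ R) ≫ (shuf W N ≫ g) ≫ (R ⊗ₘ R) := by
      simp only [Category.assoc]
      rw [← Category.assoc (shuf W N), shuf_nat, Category.assoc]
    rwa [h4] at h3
  · refine exists_theta_aux hR.zero ((β_ (N ⊗ W.T 1) N).hom ≫ (α_ N N (W.T 1)).inv ≫ g ≫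
      (β_ N N).inv) ?_
    have h4 : (L ▷ N) ≫ ((R ▷ W.T 1) ⊗ₘ R) ≫ ((β_ (N ⊗ W.T 1) N).hom ≫ (α_ N N (W.T 1)).inv ≫
        g ≫ (β_ N N).inv) ≫ (R ⊗ₘ R) = (β_ N N).hom ≫ (((N ◁ L) ≫ (α_ N N (W.T 1)).inv) ≫
          ((R ⊗ₘ R) ▷ W.T 1) ≫ g ≫ (R ⊗ₘ R)) ≫ (β_ N N).inv := by
      simp only [Category.assoc]
      rw [← BraidedCategory.braiding_naturality_left_assoc,
        BraidedCategory.braiding_naturality_assoc]
      have h5 : (β_ N N).inv ≫ (R ⊗ₘ R) = (R ⊗ₘ R) ≫ (β_ N N).inv := by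
        rw [Iso.inv_comp_eq, ← Category.assoc, ← BraidedCategory.braiding_naturality]
        simp
      rw [h5, ← Category.assoc (α_ N N (W.T 1)).inv ((R ⊗ₘ R) ▷ W.T 1), assoc_nat]
      simp only [Category.assoc]
    rw [h4, W.str_comm]
    simpa using h3

/-! ### The complementary block -/

lemma exists_tate_ne_zero (W : MotivicHomology C F) (m : ℤ) : ∃ t : W.H.obj (W.T m), t ≠ 0 := by
  have h := W.tateRank m
  have : Nontrivial (W.H.obj (W.T m)) := Module.nontrivial_of_finrank_pos (R := F) (by omega)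
  exact exists_ne 0

lemma cross_right_cancel {M P : C} {a b : W.H.obj M} {t : W.H.obj P} (ht : t ≠ 0)
    (h : W.cross a t = W.cross b t) : a = b := by
  by_contra hab
  apply cross_ne_zero (sub_ne_zero.2 hab) ht
  have h1 : W.cross (a - b) t + W.cross b t = W.cross a t := by
    rw [← W.cross_add_left, sub_add_cancel]
  rw [h] at h1
  exact add_eq_right.1 h1

/-- `φ = (R ▷ 1) ≫ θ ≫ R` is supported on `H_(n-1)(N)(1)` -/
lemma support_phi {R : N ⟶ N}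
    (hR : ∀ j, j ≠ n - 1 → j ≠ n + 1 → ∀ x ∈ W.gr N j, (W.H.map R).hom x = 0)
    (θ : N ⊗ W.T 1 ⟶ N) (j : ℤ) (hj : j ≠ n + 1) (z : W.H.obj (N ⊗ W.T 1))
    (hz : z ∈ W.gr (N ⊗ W.T 1) j) : (W.H.map ((R ▷ W.T 1) ≫ θ ≫ R)).hom z = 0 := by
  rw [W.map_comp_apply, W.map_comp_apply]
  by_cases h1 : j = n + 3
  · exact hR j (by omega) hj _ (W.map_gr _ _ _ (W.map_gr _ _ _ hz))
  · rw [map_whisker_zero R 1 j (hR _ (by omega) (by omega)) _ hz, map_zero, map_zero]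

theorem exists_complement
    (hsurj : ∀ z ∈ W.gr (N ⊗ W.T 1) (n + 1), ∃ y ∈ W.gr N (n + 1), (W.H.map L).hom y = z)
    (R : N ⟶ N)
    (hR : ∀ j, ∀ x ∈ W.gr N j, (W.H.map R).hom x = if j = n + 1 ∨ j = n - 1 then x else 0)
    (θ : N ⊗ W.T 1 ⟶ N)
    (hE : ∀ y ∈ W.gr N (n + 1), (W.H.map (L ≫ (R ▷ W.T 1) ≫ θ ≫ R)).hom
      ((W.H.map (L ≫ (R ▷ W.T 1) ≫ θ ≫ R)).hom y) =
        (W.H.map (L ≫ (R ▷ W.T 1) ≫ θ ≫ R)).hom y) :
    ∃ R' : N ⟶ N, IsBlock W n L R' ∧ ∀ x ∈ W.gr N (n + 1), (W.H.map R').hom x =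
      x - (W.H.map (L ≫ (R ▷ W.T 1) ≫ θ ≫ R)).hom x := by
  have hR0 : ∀ j, j ≠ n - 1 → j ≠ n + 1 → ∀ x ∈ W.gr N j, (W.H.map R).hom x = 0 := by
    intro j h1 h2 x hx
    rw [hR j x hx, if_neg (by tauto)]
  set φ : N ⊗ W.T 1 ⟶ N := (R ▷ W.T 1) ≫ θ ≫ R with hφ
  have hφ0 : ∀ j, j ≠ n + 1 → ∀ z ∈ W.gr (N ⊗ W.T 1) j, (W.H.map φ).hom z = 0 :=
    support_phi hR0 θ
  have hE0 : ∀ j, j ≠ n + 1 → ∀ x ∈ W.gr N j, (W.H.map (L ≫ φ)).hom x = 0 := by
    intro j hj x hx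
    rw [W.map_comp_apply]
    exact hφ0 j hj _ (W.map_gr _ _ _ hx)
  obtain ⟨u, hu⟩ := exists_untwist 1 (φ ≫ L)
  obtain ⟨t, ht⟩ := exists_tate_ne_zero W 1
  have htg : t ∈ W.gr (W.T 1) (2 * 1) := W.mem_gr_tate 1 t
  have hu0 : ∀ j, j ≠ n - 1 → ∀ x ∈ W.gr N j, (W.H.map u).hom x = 0 := by
    intro j hj x hx
    apply cross_right_cancel ht
    rw [← W.map_whiskerRight_cross, hu, W.map_comp_apply, W.cross_zero_left,
      hφ0 (j + 2 * 1) (by omega) _ (W.cross_mem hx htg), map_zero]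
  have huu : ∀ x ∈ W.gr N (n - 1), (W.H.map u).hom ((W.H.map u).hom x) = (W.H.map u).hom x := by
    intro x hx
    apply cross_right_cancel ht
    rw [← W.map_whiskerRight_cross, ← W.map_whiskerRight_cross, hu]
    have h1 : W.cross x t ∈ W.gr (N ⊗ W.T 1) (n + 1) := by
      have := W.cross_mem hx htg
      have h2 : n - 1 + 2 * 1 = n + 1 := by ring
      rwa [h2] at this
    obtain ⟨y, hy, hyz⟩ := hsurj _ h1
    rw [← hyz]
    have h3 := congrArg (W.H.map L).hom (hE y hy)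
    simp only [W.map_comp_apply] at h3 ⊢
    exact h3
  have hact1 : ∀ x ∈ W.gr N (n + 1), (W.H.map (R - L ≫ φ - u)).hom x =
      x - (W.H.map (L ≫ φ)).hom x := by
    intro x hx
    rw [W.map_sub_apply, W.map_sub_apply, hR _ x hx, if_pos (by simp), hu0 _ (by omega) x hx,
      sub_zero]
  have hact2 : ∀ x ∈ W.gr N (n - 1), (W.H.map (R - L ≫ φ - u)).hom x =
      x - (W.H.map u).hom x := by
    intro x hx
    rw [W.map_sub_apply, W.map_sub_apply, hR _ x hx, if_pos (by simp), hE0 _ (by omega) x hx,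
      sub_zero]
  have hact0 : ∀ j, j ≠ n - 1 → j ≠ n + 1 → ∀ x ∈ W.gr N j,
      (W.H.map (R - L ≫ φ - u)).hom x = 0 := by
    intro j h1 h2 x hx
    rw [W.map_sub_apply, W.map_sub_apply, hR0 j h1 h2 x hx, hE0 j h2 x hx, hu0 j h1 x hx,
      sub_zero, sub_zero]
  refine ⟨R - L ≫ φ - u, ⟨?_, hact0, ?_⟩, hact1⟩
  · intro x
    induction x using W.induction with
    | h1 j x hx =>
      by_cases h1 : j = n + 1
      · subst h1
        rw [hact1 x hx, map_sub, hact1 x hx, hact1 _ (W.map_gr _ _ _ hx), hE x hx, sub_self,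
          sub_zero]
      · by_cases h2 : j = n - 1
        · subst h2
          rw [hact2 x hx, map_sub, hact2 x hx, hact2 _ (W.map_gr _ _ _ hx), huu x hx, sub_self,
            sub_zero]
        · rw [hact0 j h2 h1 x hx, map_zero]
    | h2 x y hx hy => simp only [map_add, hx, hy]
  · intro x hx
    have hLx : (W.H.map L).hom x ∈ W.gr (N ⊗ W.T 1) (n + 1) := W.map_gr _ _ _ hx
    rw [hact1 x hx, sub_whisk, sub_whisk, W.map_sub_apply, W.map_sub_apply,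
      map_whisker_one R 1 (n + 1) (fun y hy => by
        rw [hR _ y hy, if_pos (by right; ring)]) _ hLx,
      map_whisker_zero (L ≫ φ) 1 (n + 1) (hE0 _ (by omega)) _ hLx, hu, map_sub, sub_zero]
    congr 1
    simp only [W.map_comp_apply]

/-! ### The inverse of `L` -/

theorem exists_mid
    (hinj : ∀ y ∈ W.gr N (n + 1), (W.H.map L).hom y = 0 → y = 0)
    (hsurj : ∀ z ∈ W.gr (N ⊗ W.T 1) (n + 1), ∃ y ∈ W.gr N (n + 1), (W.H.map L).hom y = z)
    (R : N ⟶ N)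
    (hR : ∀ j, ∀ x ∈ W.gr N j, (W.H.map R).hom x = if j = n + 1 ∨ j = n - 1 then x else 0)
    (g : (N ⊗ N) ⊗ W.T 1 ⟶ N ⊗ N)
    (hg₁ : ∀ x ∈ W.gr (N ⊗ N) (2 * n + 2), (W.H.map (squareL W L ≫ g)).hom x = x)
    (hg₂ : ∀ z ∈ W.gr ((N ⊗ N) ⊗ W.T 1) (2 * n), (W.H.map (g ≫ squareL W L)).hom z = z) :
    ∃ θ : N ⊗ W.T 1 ⟶ N, ∀ y ∈ W.gr N (n + 1), (W.H.map (L ≫ θ)).hom y = y := by
  have hchar := W.charZero
  have hfin := W.finite N
  have hR0 : ∀ j, j ≠ n - 1 → j ≠ n + 1 → ∀ x ∈ W.gr N j, (W.H.map R).hom x = 0 := by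
    intro j h1 h2 x hx
    rw [hR j x hx, if_neg (by tauto)]
  have hRL : ∀ x ∈ W.gr N (n + 1), (W.H.map (R ▷ W.T 1)).hom ((W.H.map L).hom x) =
      (W.H.map L).hom x := by
    intro x hx
    exact map_whisker_one R 1 (n + 1) (fun y hy => by
      rw [hR _ y hy, if_pos (by right; ring)]) _ (W.map_gr _ _ _ hx)
  have hR1 : ∀ x ∈ W.gr N (n + 1), (W.H.map R).hom x = x := by
    intro x hx
    rw [hR _ x hx, if_pos (by simp)]
  let P : Module.End F (W.H.obj N) := grProj W N (n + 1)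
  let T : Set (Module.End F (W.H.obj N)) :=
    {t | ∃ θ : N ⊗ W.T 1 ⟶ N, t = (W.H.map (L ≫ (R ▷ W.T 1) ≫ θ ≫ R)).hom}
  have hP : P ∈ T := by
    apply unit_mem_of_trace
    · refine ⟨0, ?_⟩
      apply LinearMap.ext
      intro x
      simp [W.map_zero']
    · rintro x ⟨θ₁, rfl⟩ y ⟨θ₂, rfl⟩
      refine ⟨θ₁ + θ₂, ?_⟩
      apply LinearMap.ext
      intro x
      rw [LinearMap.add_apply, ← W.map_add_apply]
      congr 3
      simp only [Preadditive.comp_add, Preadditive.add_comp]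
    · rintro x ⟨θ₁, rfl⟩ y ⟨θ₂, rfl⟩
      refine ⟨θ₂ ≫ R ≫ L ≫ (R ▷ W.T 1) ≫ θ₁, ?_⟩
      apply LinearMap.ext
      intro x
      simp only [Module.End.mul_apply, W.map_comp_apply]
    · rintro q x ⟨θ₁, rfl⟩
      refine ⟨q • θ₁, ?_⟩
      apply LinearMap.ext
      intro x
      rw [LinearMap.smul_apply, ← W.map_smul_apply]
      congr 3
      simp only [Linear.comp_smul, Linear.smul_comp]
    · rintro x ⟨θ, rfl⟩
      obtain ⟨q, hq⟩ := W.str_rat N (L ≫ (R ▷ W.T 1) ≫ θ ≫ R)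
      rw [str_block hR0] at hq
      rcases Int.even_or_odd (n + 1) with h | h
      · refine ⟨q, ?_⟩
        rw [Int.negOnePow_even _ h] at hq
        simpa using hq
      · refine ⟨-q, ?_⟩
        rw [Int.negOnePow_odd _ h] at hq
        push_cast
        rw [← hq]
        simp
    · rintro E ⟨θ₀, rfl⟩ hEE hEP
      set E : Module.End F (W.H.obj N) := (W.H.map (L ≫ (R ▷ W.T 1) ≫ θ₀ ≫ R)).hom with hEdef
      have hE2 : ∀ y, E (E y) = E y := fun y => LinearMap.congr_fun hEE y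
      have hE0 : ∀ j, j ≠ n + 1 → ∀ x ∈ W.gr N j, E x = 0 := support_block hR0 θ₀
      have hEgr : ∀ j, ∀ x ∈ W.gr N j, E x ∈ W.gr N j := fun j x hx => W.map_gr _ _ _ hx
      obtain ⟨R', hR', hact⟩ := exists_complement hsurj R hR θ₀ (fun y _ => hE2 y)
      have hact' : ∀ x ∈ W.gr N (n + 1), (W.H.map R').hom x = x - E x := hact
      -- a nonzero element of the complement
      obtain ⟨y, hy, hyE⟩ : ∃ y ∈ W.gr N (n + 1), E y ≠ y := by
        by_contra hcon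
        push Not at hcon
        apply hEP
        apply lin_ext
        intro j x hx
        change E x = grProj W N (n + 1) x
        rw [grProj_of_mem _ j hx]
        split_ifs with h1
        · subst h1; exact hcon x hx
        · exact hE0 j h1 x hx
      obtain ⟨θ, hθ⟩ := exists_theta hR' g hg₁ hg₂ (y - E y)
        (Submodule.sub_mem _ hy (hEgr _ _ hy))
        (by rw [hact' _ (Submodule.sub_mem _ hy (hEgr _ _ hy)), map_sub, hE2, sub_self, sub_zero])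
        (sub_ne_zero.2 (Ne.symm hyE))
      refine ⟨(W.H.map (L ≫ (R' ▷ W.T 1) ≫ θ ≫ R')).hom,
        ⟨(R' ▷ W.T 1) ≫ θ ≫ R', ?_⟩, ?_, ?_, hθ⟩
      · apply lin_ext
        intro j x hx
        by_cases hj : j = n + 1
        · subst hj
          simp only [W.map_comp_apply]
          rw [hRL x hx, hR1]
          exact W.map_gr _ _ _ (W.map_gr _ _ _ (W.map_gr _ _ _ (W.map_gr _ _ _ hx)))
        · rw [support_block hR'.zero θ j hj x hx, support_block hR0 _ j hj x hx]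
      · apply lin_ext
        intro j x hx
        rw [Module.End.mul_apply, LinearMap.zero_apply]
        by_cases hj : j = n + 1
        · subst hj
          have h5 : (W.H.map (L ≫ (R' ▷ W.T 1) ≫ θ ≫ R')).hom x = (W.H.map R').hom
              ((W.H.map θ).hom ((W.H.map (R' ▷ W.T 1)).hom ((W.H.map L).hom x))) := by
            rw [W.map_comp_apply, W.map_comp_apply, W.map_comp_apply]
          rw [h5, hact' _ (W.map_gr _ _ _ (W.map_gr _ _ _ (W.map_gr _ _ _ hx))), map_sub, hE2,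
            sub_self]
        · rw [support_block hR'.zero θ j hj x hx, map_zero]
      · apply lin_ext
        intro j x hx
        rw [Module.End.mul_apply, LinearMap.zero_apply]
        by_cases hj : j = n + 1
        · subst hj
          rw [W.map_comp_apply, W.map_comp_apply, hR'.comm _ (hEgr _ _ hx), hact' _ (hEgr _ _ hx),
            hE2, sub_self, map_zero, map_zero]
        · rw [hE0 j hj x hx, map_zero]
  obtain ⟨θ, hθ⟩ := hP
  refine ⟨(R ▷ W.T 1) ≫ θ ≫ R, ?_⟩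
  intro y hy
  have h1 := LinearMap.congr_fun hθ y
  rw [← h1]
  change grProj W N (n + 1) y = y
  rw [grProj_of_mem _ _ hy, if_pos rfl]

end Pool.Agent.Helper15.MAD
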